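import Mathlib
import Pool.Prelude.Def_F_b1b78ff3
import Pool.Agent.U975.IG.Fields

/-!
# The inverse Galois problem and normal subgroups of Galois groups

Every finite group `G` is the Galois group of an extension `L/M` of number fields in which `L` is
Galois over `ℚ`.  Call `G` normally realizable over a field `K` if there is such an extension in
which `M` is Galois over `K` as well, that is if `G` is isomorphic to a (finite) normal subgroup of
the Galois group of a Galois extension of `K`, and two-step realizable if `M` is a Galois extension
of a Galois extension of `K`, that is if `G` is subnormal of defect at most two.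

The theorem: over every number field every finite group is two-step realizable; but, for every
field `K`, every finite group is normally realizable over `K` if and only if every finite group is a
Galois group over `K`.  More precisely every finite group `G` has a companion, a finite group `X`
such that over every field over which `X` is normally realizable `G` is realizable, and such that
normal realizations of `X ^ n` give realizations of `G ≀ P` for some permutation group `P` of degree
`n`; whereas all sufficiently large powers of every finite group are normally realizable over all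
number fields.
-/

set_option autoImplicit false

open Nfff32c05

namespace Pool.Agent.Results.MP_dadaab_nt.NormalRealizations

/-- `G` is the Galois group of an extension `L/M`, where `L` and `M` are Galois extensions of `K`,
not necessarily finite ones. -/
def NormallyRealizable (K G : Type) [Field K] [Group G] : Prop :=
  ∃ (L : Type) (_ : Field L) (_ : Algebra K L) (_ : IsGalois K L)
    (M : IntermediateField K L), IsGalois K M ∧ Nonempty (G ≃* (L ≃ₐ[M] L))

/-- `G` is the Galois group of an extension `L/M`, where `L` and `M` are finite Galois extensions of
`K`. -/
def FinitelyNormallyRealizable (K G : Type) [Field K] [Group G] : Prop :=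
  ∃ (L : Type) (_ : Field L) (_ : Algebra K L) (_ : FiniteDimensional K L) (_ : IsGalois K L)
    (M : IntermediateField K L), IsGalois K M ∧ Nonempty (G ≃* (L ≃ₐ[M] L))

/-- `G` is the Galois group of an extension `L/M₂`, where `K ⊆ M₁ ⊆ M₂ ⊆ L` and `L/K`, `M₁/K`,
`M₂/M₁` are finite Galois extensions. -/
def TwoStepRealizable (K G : Type) [Field K] [Group G] : Prop :=
  ∃ (L M₁ M₂ : Type) (_ : Field L) (_ : Field M₁) (_ : Field M₂) (_ : Algebra K L)
    (_ : Algebra K M₁) (_ : Algebra M₁ M₂) (_ : Algebra M₁ L) (_ : Algebra M₂ L)
    (_ : IsScalarTower K M₁ L) (_ : IsScalarTower M₁ M₂ L), FiniteDimensional K L ∧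
      IsGalois K L ∧ IsGalois K M₁ ∧ IsGalois M₁ M₂ ∧ Nonempty (G ≃* (L ≃ₐ[M₂] L))

/-- The wreath product `G ≀ P = G ^ n ⋊ P` for a permutation group `P` of degree `n`. -/
def WreathOver (G : Type) [Group G] {n : ℕ} (P : Subgroup (Equiv.Perm (Fin n))) :
    Subgroup ((Fin n → G) ⋊[mulAutArrow] Equiv.Perm (Fin n)) :=
  P.comap SemidirectProduct.rightHom

/-- Every finite group is a Galois group over `K`. -/
def AllRealizable (K : Type) [Field K] : Prop :=
  ∀ (G : Type) [Group G] [Finite G], IsRealizable K G

/-- Every finite group is normally realizable over `K`. -/
def AllNormallyRealizable (K : Type) [Field K] : Prop :=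
  ∀ (G : Type) [Group G] [Finite G], NormallyRealizable K G

/-- `X` is a companion of `G`: for every field `K`, the group `G` is realizable over `K` if `X` is
normally realizable over `K`; and for every `n` the wreath product `G ≀ P` is realizable over `K` for
some permutation group `P` of degree `n` if `X ^ n` is normally realizable over `K`. -/
def IsCompanion (X G : Type) [Group X] [Group G] : Prop :=
  ∀ (K : Type) [Field K], (NormallyRealizable K X → IsRealizable K G) ∧
    ∀ n : ℕ, NormallyRealizable K (Fin n → X) →
      ∃ P : Subgroup (Equiv.Perm (Fin n)), IsRealizable K (WreathOver G P)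

end Pool.Agent.Results.MP_dadaab_nt.NormalRealizations

open Pool.Agent.Results.MP_dadaab_nt.NormalRealizations in
theorem Pool.Agent.Results.MP_dadaab_nt.NormalRealizations.result :
    -- one normal step is the inverse Galois problem
    (∀ (K : Type) [Field K], AllRealizable K ↔ AllNormallyRealizable K) ∧
    -- the companion of a finite group
    (∀ (G : Type) [Group G] [Finite G], ∃ (X : Type) (_ : Group X) (_ : Finite X),
      IsCompanion X G) ∧
    -- two steps, and large powers, are always possible over number fields
    ∀ (K : Type) [Field K] [NumberField K] (G : Type) [Group G] [Finite G],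
      TwoStepRealizable K G ∧ ∀ n : ℕ, ((3 * Nat.card G + 2).factorial) ^ 3 ≤ n →
        FinitelyNormallyRealizable K (Fin n → G) := by
  refine ⟨fun K _ => Pool.Agent.U975.IG.igp_iff K, fun G _ _ => ?_, fun K _ _ G _ _ => ?_⟩
  · obtain ⟨X, i1, i2, hX⟩ := Pool.Agent.U975.IG.force_fields G
    refine ⟨X, i1, i2, fun K _ => ⟨fun h => ?_, fun n h => hX K n h⟩⟩
    obtain ⟨e⟩ := Pool.Agent.U975.IG.fun_one X
    obtain ⟨P, hP⟩ := hX K 1 (Pool.Agent.U975.IG.NormallyRealizable.congr e.symm h)
    exact Pool.Agent.U975.IG.real_one P hP
  · have hK := Pool.Agent.H391R2.T4.hilb_numberField K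
    refine ⟨?_, fun n hn => Pool.Agent.U975.IG.powers_real K hK G n hn⟩
    obtain ⟨L, i1, i2, i3, i4, M₁, M₂, h1, h2, h3⟩ := Pool.Agent.U975.IG.twoStep K hK G
    exact ⟨L, M₁, M₂, i1, inferInstance, inferInstance, i2, inferInstance, inferInstance,
      inferInstance, inferInstance, inferInstance, inferInstance, i3, i4, h1, h2, h3⟩
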